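import Pool.Agent.Results.MP_06dd87_an.OnePart

/-!
# A continuously differentiable function on a compact plane set outside `R(X)`

Let `K` be a Swiss cheese (compact, empty interior) with `R(K) ≠ C(K)`, so that `conj z ∉ R(K)`.
Put countably many disjoint closed discs into the complement of `K`, tiny compared with their distance
to `K` and accumulating exactly at all points of `K`, and let `X` be the union of `K` and the discs.
The function `f` which is `conj z` on `K` and the constant `conj c` on the disc with centre `c` is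
Lipschitz on `X` and locally constant on `int X` (the union of the open discs), which is dense in `X`.
But `f` restricted to `K` is not in `R(K)`, hence `f ∉ R(X)`.
-/

open MeasureTheory Filter Topology Set Metric Polynomial

namespace Pool.Agent.Results.MP_a6d22b_an.NotInRX

/-- (The restriction to `X` of) `f` is in `R(X)`: it is a uniform limit on `X` of rational functions with
poles off `X`. -/
def MemR (X : Set ℂ) (f : ℂ → ℂ) : Prop :=
  ∀ ε : ℝ, 0 < ε → ∃ p q : ℂ[X], (∀ z ∈ X, q.eval z ≠ 0) ∧
    ∀ z ∈ X, ‖f z - p.eval z / q.eval z‖ < ε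

/-- (The restriction to `X` of) `f` is in `A^(1)(X)`: it is continuous on `X`, holomorphic on the
interior of `X`, and the derivative there extends to a continuous function on `X`. -/
def MemA1 (X : Set ℂ) (f : ℂ → ℂ) : Prop :=
  ContinuousOn f X ∧ DifferentiableOn ℂ f (interior X) ∧
    ∃ g : ℂ → ℂ, ContinuousOn g X ∧ ∀ z ∈ interior X, g z = deriv f z

open Pool.Agent.Results.MP_06dd87_an.OnePart

/-- The rational functions with poles off `X` as a subalgebra. -/
def ratAlg (X : Set ℂ) : Subalgebra ℂ C(X, ℂ) where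
  carrier := ratSet X
  mul_mem' := by
    rintro f g ⟨p, q, hq, hf⟩ ⟨p', q', hq', hg⟩
    refine ⟨p * p', q * q', fun z hz => ?_, fun z => ?_⟩
    · rw [eval_mul]; exact mul_ne_zero (hq z hz) (hq' z hz)
    · rw [ContinuousMap.mul_apply, hf, hg, eval_mul, eval_mul, div_mul_div_comm]
  add_mem' := by
    rintro f g ⟨p, q, hq, hf⟩ ⟨p', q', hq', hg⟩
    refine ⟨p * q' + q * p', q * q', fun z hz => ?_, fun z => ?_⟩
    · rw [eval_mul]; exact mul_ne_zero (hq z hz) (hq' z hz)
    · rw [ContinuousMap.add_apply, hf, hg, eval_mul, eval_add, eval_mul, eval_mul,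
        div_add_div _ _ (hq z z.2) (hq' z z.2)]
  algebraMap_mem' := by
    intro r
    refine ⟨C r, 1, fun z _ => by simp, fun z => ?_⟩
    simp

/-- There is a compact set with empty interior on which `conj z` is not a uniform limit of rational
functions. -/
theorem exists_cheese : ∃ K : Set ℂ, IsCompact K ∧ interior K = ∅ ∧ K.Nonempty ∧
    ¬ MemR K (fun z => (starRingEnd ℂ) z) := by
  obtain ⟨K, hK, ⟨c, ρ, a, r, h1, h2, h3, h4, h5, h6, h7⟩, -, ⟨hv0, hv⟩, -⟩ :=
    Pool.Agent.Results.MP_06dd87_an.OnePart.result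
  refine ⟨K, hK, h7, ?_, ?_⟩
  · by_contra h
    rw [not_nonempty_iff_eq_empty] at h
    exact hv (by rw [h]; simp)
  · intro hconj
    have : CompactSpace K := isCompact_iff_compactSpace.1 hK
    -- every continuous function is in `R(K)`
    have hall : ∀ f : C(K, ℂ), f ∈ Pool.Agent.Results.MP_06dd87_an.OnePart.R K := by
      have hsub : ((polynomialFunctions K).starClosure).toSubalgebra ≤
          (ratAlg K).topologicalClosure := by
        rw [polynomialFunctions.starClosure_eq_adjoin_X, StarAlgebra.adjoin_toSubalgebra]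
        refine Algebra.adjoin_le ?_
        have hX : (toContinuousMapOnAlgHom K X : C(K, ℂ)) ∈ ratAlg K := by
          refine ⟨X, 1, fun z _ => by simp, fun z => ?_⟩
          simp
        rintro g (hg | hg)
        · rw [mem_singleton_iff.1 hg]
          exact (ratAlg K).le_topologicalClosure hX
        · rw [Set.mem_star, mem_singleton_iff] at hg
          have hg' : g = star (toContinuousMapOnAlgHom K X : C(K, ℂ)) := by
            rw [← hg, star_star]
          rw [hg']
          show _ ∈ closure (ratSet K)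
          rw [Metric.mem_closure_iff]
          intro ε hε
          obtain ⟨p, q, hq, hpq⟩ := hconj (ε / 2) (by linarith)
          refine ⟨⟨fun z : K => p.eval (z : ℂ) / q.eval (z : ℂ), ?_⟩, ⟨p, q, hq, fun z => rfl⟩, ?_⟩
          · exact Continuous.div (by fun_prop) (by fun_prop) fun z => hq z z.2
          · rw [ContinuousMap.dist_lt_iff hε]
            intro z
            rw [dist_eq_norm]
            have := hpq z z.2
            exact lt_trans (by simpa using this) (half_lt_self hε)
      intro f
      have htop := polynomialFunctions.starClosure_topologicalClosure K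
      have hf : f ∈ closure ((polynomialFunctions K).starClosure : Set C(K, ℂ)) := by
        have h : f ∈ (polynomialFunctions K).starClosure.topologicalClosure := by
          rw [htop]; trivial
        exact h
      have h2 : closure ((polynomialFunctions K).starClosure : Set C(K, ℂ)) ⊆
          ((ratAlg K).topologicalClosure : Set C(K, ℂ)) :=
        closure_minimal hsub (ratAlg K).isClosed_topologicalClosure
      exact h2 hf
    apply hv
    rw [← hv0]
    congr 1
    ext z
    constructor
    · intro hz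
      refine ⟨hz, ?_⟩
      refine ⟨⟨fun y => ((1 / (1 + dist (y : ℂ) z) : ℝ) : ℂ), ?_⟩, hall _, ?_, ?_⟩
      · refine Complex.continuous_ofReal.comp (Continuous.div continuous_const (by fun_prop) ?_)
        intro y
        have := dist_nonneg (x := (y : ℂ)) (y := z)
        positivity
      · simp
      · intro y hy
        have hd : 0 < dist (y : ℂ) z := dist_pos.2 fun h => hy (Subtype.ext h)
        rw [ContinuousMap.coe_mk, Complex.norm_real, Real.norm_of_nonneg (by positivity),
          div_lt_one (by positivity)]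
        linarith
    · rintro ⟨h, -⟩
      exact h

/-- Room for a small disc near a point of `K`, away from `K` and from a closed set `F` disjoint from `K`. -/
theorem room {K : Set ℂ} (hK : IsClosed K) (hint : interior K = ∅) {p : ℂ} (hp : p ∈ K) {F : Set ℂ}
    (hF : IsClosed F) (hFK : Disjoint F K) {δ : ℝ} (hδ : 0 < δ) :
    ∃ (q : ℂ) (ρ : ℝ), 0 < ρ ∧ closedBall q (3 * ρ) ⊆ ball p δ ∧ Disjoint (closedBall q (3 * ρ)) K ∧
      Disjoint (closedBall q (3 * ρ)) F := by
  have hpF : p ∉ F := fun h => hFK.le_bot ⟨h, hp⟩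
  have hO : IsOpen (ball p δ ∩ Fᶜ) := isOpen_ball.inter hF.isOpen_compl
  have hne : ¬ (ball p δ ∩ Fᶜ) ⊆ K := by
    intro h
    have h2 := interior_maximal h hO
    rw [hint] at h2
    exact h2 ⟨mem_ball_self hδ, hpF⟩
  obtain ⟨q, ⟨hq1, hq2⟩, hq3⟩ := not_subset.1 hne
  have hO2 : IsOpen (ball p δ ∩ Fᶜ ∩ Kᶜ) := hO.inter hK.isOpen_compl
  obtain ⟨r, hr, hr2⟩ := Metric.isOpen_iff.1 hO2 q ⟨⟨hq1, hq2⟩, hq3⟩
  have hsub : closedBall q (3 * (r / 4)) ⊆ ball p δ ∩ Fᶜ ∩ Kᶜ :=
    (closedBall_subset_ball (by linarith)).trans hr2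
  refine ⟨q, r / 4, by linarith, fun z hz => (hsub hz).1.1, ?_, ?_⟩
  · exact Set.disjoint_left.2 fun z hz => (hsub hz).2
  · exact Set.disjoint_left.2 fun z hz => (hsub hz).1.2

/-- Disjoint discs accumulating exactly at the points of `K`. -/
theorem discs {K : Set ℂ} (hK : IsClosed K) (hint : interior K = ∅) (p : ℕ → ℂ) (hp : ∀ n, p n ∈ K) :
    ∃ (Q : ℕ → ℂ) (ρ : ℕ → ℝ), (∀ n, 0 < ρ n) ∧
      (∀ n, closedBall (Q n) (3 * ρ n) ⊆ ball (p n) (1 / ((n : ℝ) + 1))) ∧
      (∀ n, Disjoint (closedBall (Q n) (3 * ρ n)) K) ∧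
      ∀ m n, m < n → Disjoint (closedBall (Q n) (3 * ρ n)) (closedBall (Q m) (2 * ρ m)) := by
  have key : ∀ (n : ℕ) (F : Set ℂ), ∃ (q : ℂ) (r : ℝ), (IsClosed F ∧ Disjoint F K) →
      (0 < r ∧ closedBall q (3 * r) ⊆ ball (p n) (1 / ((n : ℝ) + 1)) ∧
        Disjoint (closedBall q (3 * r)) K ∧ Disjoint (closedBall q (3 * r)) F) := by
    intro n F
    by_cases h : IsClosed F ∧ Disjoint F K
    · obtain ⟨q, r, H⟩ := room hK hint (hp n) h.1 h.2 (δ := 1 / ((n : ℝ) + 1)) (by positivity)
      exact ⟨q, r, fun _ => H⟩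
    · exact ⟨0, 0, fun h' => absurd h' h⟩
  choose q r hqr using key
  let Fs : ℕ → Set ℂ := fun n => Nat.rec ∅ (fun k F => F ∪ closedBall (q k F) (2 * r k F)) n
  have hFs : ∀ n, IsClosed (Fs n) ∧ Disjoint (Fs n) K := by
    intro n
    induction n with
    | zero => exact ⟨isClosed_empty, Set.empty_disjoint _⟩
    | succ n ih =>
      obtain ⟨h1, h2, h3, h4⟩ := hqr n (Fs n) ih
      refine ⟨ih.1.union isClosed_closedBall, ?_⟩
      show Disjoint (Fs n ∪ closedBall (q n (Fs n)) (2 * r n (Fs n))) K
      rw [Set.disjoint_union_left]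
      exact ⟨ih.2, h3.mono_left (closedBall_subset_closedBall (by linarith))⟩
  have hmono : ∀ m n, m < n → closedBall (q m (Fs m)) (2 * r m (Fs m)) ⊆ Fs n := by
    intro m n hmn
    induction n with
    | zero => omega
    | succ n ih =>
      show _ ⊆ Fs n ∪ closedBall (q n (Fs n)) (2 * r n (Fs n))
      rcases Nat.lt_succ_iff_lt_or_eq.1 hmn with h | rfl
      · exact (ih h).trans subset_union_left
      · exact subset_union_right
  refine ⟨fun n => q n (Fs n), fun n => r n (Fs n), fun n => (hqr n _ (hFs n)).1,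
    fun n => (hqr n _ (hFs n)).2.1, fun n => (hqr n _ (hFs n)).2.2.1, fun m n hmn => ?_⟩
  exact (hqr n _ (hFs n)).2.2.2.mono_right (hmono m n hmn)

/-- There are a compact plane set `X` with dense interior and a function `f` on `X` which is Lipschitz on
`X`, has derivative `0` at every interior point (so `f ∈ A^(1)(X)`), and is not in `R(X)`. -/
theorem result : ∃ (X : Set ℂ) (f : ℂ → ℂ), IsCompact X ∧ X.Nonempty ∧ X ⊆ closure (interior X) ∧
    MemA1 X f ∧ ¬ MemR X f ∧ LipschitzOnWith 3 f X ∧ ∀ z ∈ interior X, HasDerivAt f 0 z := by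
  classical
  obtain ⟨K, hK, hint, hne, hconj⟩ := exists_cheese
  have hKc := hK.isClosed
  -- a sequence of points of `K` that visits every neighbourhood infinitely often
  have : Nonempty K := hne.to_subtype
  let p : ℕ → ℂ := fun n => (TopologicalSpace.denseSeq K (Nat.unpair n).1 : ℂ)
  have hp : ∀ n, p n ∈ K := fun n => (TopologicalSpace.denseSeq K (Nat.unpair n).1).2
  have hpd : ∀ z ∈ K, ∀ ε : ℝ, 0 < ε → ∃ n : ℕ, dist (p n) z < ε ∧ 1 / ((n : ℝ) + 1) < ε := by
    intro z hz ε hε
    obtain ⟨n, hn⟩ := (TopologicalSpace.denseRange_denseSeq K).exists_dist_lt (⟨z, hz⟩ : K) hε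
    obtain ⟨N, hN⟩ := exists_nat_one_div_lt hε
    refine ⟨Nat.pair n N, ?_, ?_⟩
    · have h0 : p (Nat.pair n N) = (TopologicalSpace.denseSeq K n : ℂ) := by simp [p]
      rw [dist_comm, h0]
      exact hn
    · refine lt_of_le_of_lt ?_ hN
      have : (N : ℝ) ≤ (Nat.pair n N : ℝ) := by exact_mod_cast Nat.right_le_pair n N
      exact one_div_le_one_div_of_le (by positivity) (by linarith)
  obtain ⟨Q, ρ, hρ, hQ1, hQ2, hQ3⟩ := discs hKc hint p hp
  have hdisj : ∀ m n, m ≠ n → Disjoint (closedBall (Q n) (2 * ρ n)) (closedBall (Q m) (2 * ρ m)) := by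
    intro m n hmn
    have h2 := hρ n
    have h2' := hρ m
    rcases lt_or_gt_of_ne hmn with h | h
    · exact (hQ3 m n h).mono_left (closedBall_subset_closedBall (by linarith))
    · exact ((hQ3 n m h).mono_left (closedBall_subset_closedBall (by linarith))).symm
  let X : Set ℂ := K ∪ ⋃ n, closedBall (Q n) (ρ n)
  have hXK : K ⊆ X := subset_union_left
  have hXB : ∀ n, closedBall (Q n) (ρ n) ⊆ X := fun n =>
    (subset_iUnion (fun n => closedBall (Q n) (ρ n)) n).trans subset_union_right
  -- basic metric facts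
  have hnear : ∀ n, ∀ z ∈ closedBall (Q n) (3 * ρ n), dist z (p n) < 1 / ((n : ℝ) + 1) := fun n z hz =>
    hQ1 n hz
  have hball : ∀ n, closedBall (Q n) (ρ n) ⊆ closedBall (Q n) (3 * ρ n) := fun n =>
    closedBall_subset_closedBall (by linarith [hρ n])
  have hball2 : ∀ n, closedBall (Q n) (ρ n) ⊆ closedBall (Q n) (2 * ρ n) := fun n =>
    closedBall_subset_closedBall (by linarith [hρ n])
  have hball23 : ∀ n, closedBall (Q n) (2 * ρ n) ⊆ closedBall (Q n) (3 * ρ n) := fun n =>
    closedBall_subset_closedBall (by linarith [hρ n])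
  have hKB : ∀ n, ∀ z ∈ K, 3 * ρ n < dist z (Q n) := by
    intro n z hz
    by_contra h
    exact (hQ2 n).le_bot ⟨mem_closedBall.2 (not_lt.1 h), hz⟩
  have hBB : ∀ m n, m ≠ n → ∀ z ∈ closedBall (Q m) (ρ m), 2 * ρ n < dist z (Q n) := by
    intro m n hmn z hz
    by_contra h
    exact (hdisj m n hmn).le_bot ⟨mem_closedBall.2 (not_lt.1 h), hball2 m hz⟩
  -- points of the annuli are not in `X`
  have hann : ∀ n z, ρ n < dist z (Q n) → dist z (Q n) ≤ 2 * ρ n → z ∉ X := by
    intro n z h1 h2 hz
    rcases hz with hz | hz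
    · have := hKB n z hz
      linarith [hρ n]
    · obtain ⟨m, hm⟩ := mem_iUnion.1 hz
      rcases eq_or_ne m n with rfl | hmn
      · exact absurd (mem_closedBall.1 hm) (not_le.2 h1)
      · have := hBB m n hmn z hm
        linarith
  -- compactness
  have hXeq : X = ⋂ n : ℕ, (cthickening (1 / ((n : ℝ) + 1)) K ∪
      ⋃ k ∈ Finset.range (n + 1), closedBall (Q k) (ρ k)) := by
    apply Subset.antisymm
    · rintro z (hz | hz)
      · exact mem_iInter.2 fun n => Or.inl (self_subset_cthickening _ hz)
      · obtain ⟨k, hk⟩ := mem_iUnion.1 hz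
        refine mem_iInter.2 fun n => ?_
        rcases Nat.lt_or_ge k (n + 1) with h | h
        · exact Or.inr (mem_iUnion₂.2 ⟨k, Finset.mem_range.2 h, hk⟩)
        · left
          refine mem_cthickening_of_dist_le z (p k) _ _ (hp k) ?_
          refine (hnear k z (hball k hk)).le.trans ?_
          apply one_div_le_one_div_of_le (by positivity)
          have : (n : ℝ) + 1 ≤ k := by exact_mod_cast h
          linarith
    · intro z hz
      by_cases h : ∃ k, z ∈ closedBall (Q k) (ρ k)
      · obtain ⟨k, hk⟩ := h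
        exact hXB k hk
      · left
        have h1 : ∀ n : ℕ, z ∈ cthickening (1 / ((n : ℝ) + 1)) K := by
          intro n
          rcases mem_iInter.1 hz n with h2 | h2
          · exact h2
          · obtain ⟨k, -, hk⟩ := mem_iUnion₂.1 h2
            exact absurd ⟨k, hk⟩ h
        have h2 : infDist z K = 0 := by
          apply le_antisymm _ infDist_nonneg
          apply le_of_forall_pos_le_add
          intro ε hε
          obtain ⟨n, hn⟩ := exists_nat_one_div_lt hε
          have h3 : infDist z K ≤ 1 / ((n : ℝ) + 1) :=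
            ENNReal.toReal_le_of_le_ofReal (by positivity) (h1 n)
          linarith
        exact (hKc.mem_iff_infDist_zero hne).2 h2
  have hXc : IsClosed X := by
    rw [hXeq]
    refine isClosed_iInter fun n => isClosed_cthickening.union ?_
    exact (Finset.finite_toSet _).isClosed_biUnion fun k _ => isClosed_closedBall
  have hXb : Bornology.IsBounded X := by
    refine (hK.isBounded.cthickening (δ := 1)).subset ?_
    intro z hz
    rw [hXeq] at hz
    rcases mem_iInter.1 hz 0 with h | h
    · simpa using h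
    · obtain ⟨k, -, hk⟩ := mem_iUnion₂.1 h
      refine mem_cthickening_of_dist_le z (p k) _ _ (hp k) ((hnear k z (hball k hk)).le.trans ?_)
      rw [div_le_one (by positivity)]
      have : (0 : ℝ) ≤ k := Nat.cast_nonneg k
      linarith
  have hXcomp : IsCompact X := isCompact_of_isClosed_isBounded hXc hXb
  -- the interior
  have hsubint : ∀ n, ball (Q n) (ρ n) ⊆ interior X := fun n =>
    interior_maximal (ball_subset_closedBall.trans (hXB n)) isOpen_ball
  have hint2 : ∀ z ∈ interior X, ∃ n, z ∈ ball (Q n) (ρ n) := by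
    intro z hz
    obtain ⟨δ, hδ, hδ2⟩ := Metric.isOpen_iff.1 isOpen_interior z hz
    rcases interior_subset hz with h | h
    · exfalso
      obtain ⟨n, hn1, hn2⟩ := hpd z h (δ / 2) (by linarith)
      have hw : dist (Q n + ((3 / 2 * ρ n : ℝ) : ℂ)) (Q n) = 3 / 2 * ρ n := by
        rw [dist_eq_norm, add_sub_cancel_left, Complex.norm_real,
          Real.norm_of_nonneg (by linarith [hρ n])]
      refine hann n (Q n + ((3 / 2 * ρ n : ℝ) : ℂ)) (by rw [hw]; linarith [hρ n])
        (by rw [hw]; linarith [hρ n]) (interior_subset (hδ2 ?_))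
      have h3 := hnear n (Q n + ((3 / 2 * ρ n : ℝ) : ℂ))
        (mem_closedBall.2 (by rw [hw]; linarith [hρ n]))
      rw [mem_ball]
      calc dist _ z ≤ dist _ (p n) + dist (p n) z := dist_triangle _ _ _
        _ < 1 / ((n : ℝ) + 1) + δ / 2 := by linarith
        _ < δ := by linarith
    · obtain ⟨n, hn⟩ := mem_iUnion.1 h
      refine ⟨n, ?_⟩
      rw [mem_ball]
      by_contra hlt
      have heq : dist z (Q n) = ρ n := le_antisymm (mem_closedBall.1 hn) (not_lt.1 hlt)
      obtain ⟨t, ht0, ht1, htδ⟩ : ∃ t : ℝ, 0 < t ∧ t ≤ 1 ∧ t * ρ n < δ := by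
        refine ⟨min 1 (δ / (2 * ρ n)), lt_min one_pos (by have := hρ n; positivity), min_le_left _ _, ?_⟩
        have h1 : min 1 (δ / (2 * ρ n)) ≤ δ / (2 * ρ n) := min_le_right _ _
        have h2 := hρ n
        calc min 1 (δ / (2 * ρ n)) * ρ n ≤ δ / (2 * ρ n) * ρ n := by gcongr
          _ = δ / 2 := by field_simp
          _ < δ := by linarith
      set w : ℂ := Q n + ((1 + t : ℝ) : ℂ) * (z - Q n) with hw
      have hw1 : dist w (Q n) = (1 + t) * ρ n := by
        rw [dist_eq_norm, hw, add_sub_cancel_left, norm_mul, Complex.norm_real,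
          Real.norm_of_nonneg (by linarith), ← dist_eq_norm, heq]
      have hw2 : dist w z = t * ρ n := by
        have : w - z = (t : ℂ) * (z - Q n) := by rw [hw]; push_cast; ring
        rw [dist_eq_norm, this, norm_mul, Complex.norm_real, Real.norm_of_nonneg ht0.le,
          ← dist_eq_norm, heq]
      have h4 := hρ n
      refine hann n w ?_ ?_ (interior_subset (hδ2 ?_))
      · rw [hw1]; nlinarith
      · rw [hw1]; nlinarith
      · rw [mem_ball, hw2]; exact htδ
  have hdense : X ⊆ closure (interior X) := by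
    rintro z (hz | hz)
    · rw [Metric.mem_closure_iff]
      intro ε hε
      obtain ⟨n, hn1, hn2⟩ := hpd z hz (ε / 2) (by linarith)
      refine ⟨Q n, hsubint n (mem_ball_self (hρ n)), ?_⟩
      have h3 := hnear n (Q n) (mem_closedBall_self (by linarith [hρ n]))
      rw [dist_comm]
      calc dist (Q n) z ≤ dist (Q n) (p n) + dist (p n) z := dist_triangle _ _ _
        _ < ε := by linarith
    · obtain ⟨n, hn⟩ := mem_iUnion.1 hz
      have : z ∈ closure (ball (Q n) (ρ n)) := by
        rw [closure_ball _ (hρ n).ne']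
        exact hn
      exact closure_mono (hsubint n) this
  -- the function
  let g : ℂ → ℂ := fun z => if h : ∃ n, z ∈ closedBall (Q n) (ρ n) then Q h.choose else z
  have hg1 : ∀ n, ∀ z ∈ closedBall (Q n) (ρ n), g z = Q n := by
    intro n z hz
    have h : ∃ n, z ∈ closedBall (Q n) (ρ n) := ⟨n, hz⟩
    have h2 : h.choose = n := by
      by_contra hne'
      have := hBB n h.choose (Ne.symm hne') z hz
      have h3 := mem_closedBall.1 h.choose_spec
      linarith [hρ h.choose]
    show (if h : ∃ n, z ∈ closedBall (Q n) (ρ n) then Q h.choose else z) = Q n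
    rw [dif_pos h, h2]
  have hg2 : ∀ z ∈ K, g z = z := by
    intro z hz
    have h : ¬ ∃ n, z ∈ closedBall (Q n) (ρ n) := by
      rintro ⟨n, hn⟩
      exact (hQ2 n).le_bot ⟨hball n hn, hz⟩
    show (if h : ∃ n, z ∈ closedBall (Q n) (ρ n) then Q h.choose else z) = z
    rw [dif_neg h]
  -- a half of the Lipschitz estimate
  have hgd : ∀ z ∈ X, ∀ w ∈ X, g z ≠ g w → dist (g z) z ≤ dist z w := by
    intro z hz w hw hne'
    rcases hz with hz | hz
    · rw [hg2 z hz, dist_self]; exact dist_nonneg
    · obtain ⟨n, hn⟩ := mem_iUnion.1 hz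
      rw [hg1 n z hn]
      have h1 : 2 * ρ n < dist w (Q n) := by
        rcases hw with hw | hw
        · linarith [hKB n w hw, hρ n]
        · obtain ⟨m, hm⟩ := mem_iUnion.1 hw
          have hmn : m ≠ n := by
            rintro rfl
            exact hne' (by rw [hg1 _ z hn, hg1 _ w hm])
          exact hBB m n hmn w hm
      have h2 : dist z (Q n) ≤ ρ n := mem_closedBall.1 hn
      have h3 := dist_triangle w z (Q n)
      rw [dist_comm w z] at h3
      rw [dist_comm (Q n) z]
      linarith
  have hglip : ∀ z ∈ X, ∀ w ∈ X, dist (g z) (g w) ≤ 3 * dist z w := by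
    intro z hz w hw
    by_cases hne' : g z = g w
    · rw [hne', dist_self]; positivity
    · have h1 := hgd z hz w hw hne'
      have h2 := hgd w hw z hz (Ne.symm hne')
      have h3 := dist_triangle4 (g z) z w (g w)
      rw [dist_comm w z] at h2
      rw [dist_comm w (g w)] at h3
      linarith
  let f : ℂ → ℂ := fun z => (starRingEnd ℂ) (g z)
  have hflip : LipschitzOnWith 3 f X := by
    refine LipschitzOnWith.of_dist_le_mul fun z hz w hw => ?_
    have : dist (f z) (f w) = dist (g z) (g w) := Complex.dist_conj_conj _ _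
    rw [this]
    simpa using hglip z hz w hw
  have hfder : ∀ z ∈ interior X, HasDerivAt f 0 z := by
    intro z hz
    obtain ⟨n, hn⟩ := hint2 z hz
    have hev : f =ᶠ[𝓝 z] fun _ => (starRingEnd ℂ) (Q n) := by
      filter_upwards [isOpen_ball.mem_nhds hn] with w hw
      show (starRingEnd ℂ) (g w) = _
      rw [hg1 n w (ball_subset_closedBall hw)]
    exact (hasDerivAt_const z _).congr_of_eventuallyEq hev
  refine ⟨X, f, hXcomp, hne.mono hXK, hdense, ⟨hflip.continuousOn, ?_, fun _ => 0,
    continuousOn_const, fun z hz => (hfder z hz).deriv.symm⟩, ?_, hflip, hfder⟩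
  · intro z hz
    exact (hfder z hz).differentiableAt.differentiableWithinAt
  · intro hR
    apply hconj
    intro ε hε
    obtain ⟨P, q, hq, hPq⟩ := hR ε hε
    refine ⟨P, q, fun z hz => hq z (hXK hz), fun z hz => ?_⟩
    have := hPq z (hXK hz)
    have hfz : f z = (starRingEnd ℂ) z := by
      show (starRingEnd ℂ) (g z) = _
      rw [hg2 z hz]
    rwa [hfz] at this

end Pool.Agent.Results.MP_a6d22b_an.NotInRX
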